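import Pool.Agent.Lib.MP_b5021c_nt.IfaceB

/-!
# Board b5, row UNA: units of `AO O L`, and the key lemma on lowest parts
-/

namespace Pool.Agent.B5.H03

open Pool.Agent.B5

/-- Lowest parts: if the part of degree `m + n` of `X * Y` has at most the exponent `0`, then the
lowest parts of `X` and `Y` are monomials with opposite exponents. -/
theorem low_key {O : Type} [CommRing O] [IsDomain O] {L : Type} [AddCommGroup L]
    [Module.Free ℤ L] [Module.Finite ℤ L] (X Y : AO O L) (lam : L →+ ℤ) (m n : ℤ)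
    (hX : ∀ a ∈ supp X, m ≤ lam a) (hY : ∀ b ∈ supp Y, n ≤ lam b)
    (hV : ∀ x ∈ supp (X * Y), lam x = m + n → x = 0)
    {a b : L} (ha : a ∈ supp X) (ham : lam a = m) (hb : b ∈ supp Y) (hbn : lam b = n) :
    a + b = 0 ∧ (∀ a' ∈ supp X, lam a' = m → a' = a) ∧
      (∀ b' ∈ supp Y, lam b' = n → b' = b) := by
  classical
  set A : Finset L := X.coeff.support.filter fun x => lam x = m with hA
  set B : Finset L := Y.coeff.support.filter fun x => lam x = n with hB
  have memA : ∀ x, x ∈ A ↔ x ∈ supp X ∧ lam x = m := fun x => by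
    rw [hA, Finset.mem_filter, Finsupp.mem_support_iff]; rfl
  have memB : ∀ x, x ∈ B ↔ x ∈ supp Y ∧ lam x = n := fun x => by
    rw [hB, Finset.mem_filter, Finsupp.mem_support_iff]; rfl
  have key : ∀ p q : L, p ∈ A → q ∈ B → UniqueAdd A B p q → p + q = 0 := by
    intro p q hp hq hu
    have hu2 : UniqueAdd X.coeff.support Y.coeff.support p q := by
      intro x y hx hy hxy
      have hx' : x ∈ supp X := by rwa [Finsupp.mem_support_iff] at hx
      have hy' : y ∈ supp Y := by rwa [Finsupp.mem_support_iff] at hy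
      have h1 := hX x hx'
      have h2 := hY y hy'
      have h3 : lam x + lam y = m + n := by
        rw [← map_add, hxy, map_add, ((memA p).mp hp).2, ((memB q).mp hq).2]
      exact hu ((memA x).mpr ⟨hx', by omega⟩) ((memB y).mpr ⟨hy', by omega⟩) hxy
    have h4 := AddMonoidAlgebra.coeff_mul_add_of_uniqueAdd hu2
    refine hV (p + q) ?_ ?_
    · show (X * Y).coeff (p + q) ≠ 0
      rw [h4]
      exact mul_ne_zero ((memA p).mp hp).1 ((memB q).mp hq).1
    · rw [map_add, ((memA p).mp hp).2, ((memB q).mp hq).2]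
  have haA : a ∈ A := (memA a).mpr ⟨ha, ham⟩
  have hbB : b ∈ B := (memB b).mpr ⟨hb, hbn⟩
  have hc : ¬ 1 < A.card * B.card := by
    intro hc
    obtain ⟨p1, hp1, p2, hp2, hne, u1, u2⟩ := TwoUniqueSums.uniqueAdd_of_one_lt_card hc
    rw [Finset.mem_product] at hp1 hp2
    have e1 := key _ _ hp1.1 hp1.2 u1
    have e2 := key _ _ hp2.1 hp2.2 u2
    have e3 := u1 hp2.1 hp2.2 (e2.trans e1.symm)
    exact hne (Prod.ext e3.1.symm e3.2.symm)
  have hA1 : 0 < A.card := Finset.card_pos.mpr ⟨a, haA⟩
  have hB1 : 0 < B.card := Finset.card_pos.mpr ⟨b, hbB⟩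
  have hA2 : A.card ≤ 1 := by
    by_contra h
    exact hc (by nlinarith)
  have hB2 : B.card ≤ 1 := by
    by_contra h
    exact hc (by nlinarith)
  rw [Finset.card_le_one] at hA2 hB2
  refine ⟨key a b haA hbB ?_, fun a' h1 h2 => hA2 a' ((memA a').mpr ⟨h1, h2⟩) a haA,
    fun b' h1 h2 => hB2 b' ((memB b').mpr ⟨h1, h2⟩) b hbB⟩
  intro x y hx hy _
  exact ⟨hA2 x hx a haA, hB2 y hy b hbB⟩

/-- an element whose support has at most the element `a` is a monomial -/
theorem eq_single {O : Type} [CommRing O] {L : Type} [AddCommGroup L] (X : AO O L) (a : L)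
    (h : ∀ x ∈ supp X, x = a) : X = AddMonoidAlgebra.single a (X.coeff a) := by
  apply AddMonoidAlgebra.ext
  apply Finsupp.ext
  intro x
  rw [AddMonoidAlgebra.coeff_single]
  by_cases hx : x = a
  · rw [hx, Finsupp.single_eq_same]
  · rw [Finsupp.single_eq_of_ne hx]
    by_contra h0
    exact hx (h x h0)

theorem exists_supp {O : Type} [CommRing O] {L : Type} [AddCommGroup L] {X : AO O L}
    (h : X ≠ 0) : ∃ a, a ∈ supp X := by
  by_contra h0
  push Not at h0
  apply h
  apply AddMonoidAlgebra.ext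
  apply Finsupp.ext
  intro x
  by_contra hx
  exact h0 x hx

theorem una : UnitAS := by
  intro O _ _ _ _ L _ _ _ G
  constructor
  · intro hG
    obtain ⟨H, hH⟩ := hG.exists_right_inv
    have hG0 : G ≠ 0 := fun h => by
      rw [h, zero_mul] at hH
      exact zero_ne_one hH
    have hH0 : H ≠ 0 := fun h => by
      rw [h, mul_zero] at hH
      exact zero_ne_one hH
    obtain ⟨a, ha⟩ := exists_supp hG0
    obtain ⟨b, hb⟩ := exists_supp hH0
    have key := low_key G H 0 0 0 (fun _ _ => le_refl _) (fun _ _ => le_refl _) (by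
      intro x hx _
      rw [hH] at hx
      by_contra h0
      apply hx
      show (1 : AO O L).coeff x = 0
      rw [AddMonoidAlgebra.one_def, AddMonoidAlgebra.coeff_single, Finsupp.single_eq_of_ne h0])
      ha rfl hb rfl
    obtain ⟨k1, k2, k3⟩ := key
    have e1 := eq_single G a fun x hx => k2 x hx rfl
    have e2 := eq_single H b fun x hx => k3 x hx rfl
    refine ⟨a, G.coeff a, ?_, e1⟩
    rw [e1, e2, AddMonoidAlgebra.single_mul_single, k1, AddMonoidAlgebra.one_def] at hH
    have h5 : G.coeff a * H.coeff b = 1 := by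
      have h6 := congrArg (fun X : AO O L => X.coeff 0) hH
      simpa using h6
    exact IsUnit.of_mul_eq_one _ h5
  · rintro ⟨a, c, hc, rfl⟩
    obtain ⟨d, hd⟩ := hc.exists_right_inv
    refine IsUnit.of_mul_eq_one (AddMonoidAlgebra.single (-a) d) ?_
    rw [AddMonoidAlgebra.single_mul_single, hd, add_neg_cancel]
    rfl

end Pool.Agent.B5.H03
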