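import Pool.Agent.Lib.MP_b5021c_nt.B.H03.Una
import Pool.Agent.Lib.MP_b5021c_nt.H96.Slm
import Pool.Agent.Lib.MP_b5021c_nt.H76.Za
import Pool.Agent.Lib.MP_b5021c_nt.B.H36.Evr
import Pool.Agent.Lib.MP_b5021c_nt.B.H07.Zfi

/-!
# Board b5, row B4C: factors of stable elements
-/

namespace Pool.Agent.B5.H03

open Pool.Agent.B5 Polynomial

theorem dense_compl (s : Set Circle) (hs : s.Finite) : Dense sᶜ := by
  have hnt : Nontrivial Circle := by
    refine ⟨⟨1, Circle.exp Real.pi, fun h => ?_⟩⟩
    have h1 := congrArg (fun w : Circle => (w : ℂ)) h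
    simp only [Circle.coe_one, Circle.coe_exp, Complex.exp_pi_mul_I] at h1
    norm_num at h1
  have := Dense.sdiff_finite (dense_univ (X := Circle)) hs
  rwa [← Set.compl_eq_univ_sdiff] at this

section

variable {O : Type} [CommRing O] [IsDomain O] [IsPrincipalIdealRing O] [Coef O]
  {L : Type} [AddCommGroup L] [Module.Free ℤ L] [Module.Finite ℤ L]

/-- the slice at `z` as a sum over the support of `X` -/
theorem eval_spec (X : AO O L) (z : Circle) (u : AddChar L Circle) (lam : L →+ ℤ) (s : ℂ) :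
    (sl u lam (spec z X)).eval s = ∑ a ∈ X.coeff.support,
      evR z (X.coeff a) * (u a : ℂ) * s ^ (lam a).toNat := by
  classical
  unfold sl Finsupp.sum
  rw [Polynomial.eval_finsetSum]
  simp only [Polynomial.eval_monomial]
  refine Finset.sum_subset_zero_on_sdiff ?_ ?_ ?_
  · intro a ha
    rw [Finsupp.mem_support_iff, spec_coeff] at ha
    rw [Finsupp.mem_support_iff]
    intro h0
    exact ha (by rw [h0, map_zero])
  · intro a ha
    rw [Finset.mem_sdiff, Finsupp.notMem_support_iff, spec_coeff] at ha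
    rw [ha.2, zero_mul, zero_mul]
  · intro a _
    rw [spec_coeff]

theorem natDegree_spec (X : AO O L) (z : Circle) (u : AddChar L Circle) (lam : L →+ ℤ) :
    (sl u lam (spec z X)).natDegree ≤ X.coeff.support.sup fun a => (lam a).toNat := by
  unfold sl Finsupp.sum
  refine Polynomial.natDegree_sum_le_of_forall_le _ _ fun a ha => ?_
  refine (Polynomial.natDegree_monomial_le _).trans ?_
  refine Finset.le_sup (f := fun a => (lam a).toNat) ?_
  rw [Finsupp.mem_support_iff, spec_coeff] at ha
  rw [Finsupp.mem_support_iff]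
  intro h0
  exact ha (by rw [h0, map_zero])

theorem coeff_zero_spec (X : AO O L) (z : Circle) (u : AddChar L Circle) (lam : L →+ ℤ)
    (hX : Pos lam X) : (sl u lam (spec z X)).coeff 0 = evR z (X.coeff 0) := by
  rw [Polynomial.coeff_zero_eq_eval_zero, eval_spec]
  rw [Finset.sum_eq_single (0 : L)]
  · simp
  · intro a ha h0
    have := hX a ha h0
    rw [zero_pow (by omega), mul_zero]
  · intro h0
    rw [Finsupp.notMem_support_iff] at h0
    rw [h0, map_zero, zero_mul, zero_mul]

theorem nn_spec {X : AO O L} {lam : L →+ ℤ} (h : Nn lam X) (z : Circle) : Nn lam (spec z X) := by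
  intro a ha
  apply h
  rw [Finsupp.mem_support_iff, spec_coeff] at ha
  rw [Finsupp.mem_support_iff]
  intro h0
  exact ha (by rw [h0, map_zero])

theorem pos_nn {X : AO O L} {lam : L →+ ℤ} (h : Pos lam X) : Nn lam X := by
  intro a ha
  by_cases h0 : a = 0
  · rw [h0, map_zero]
  · exact (h a ha h0).le

/-- a factor of a stable element with the right support is stable -/
theorem stable_factor {V X Y : AO O L} (hV : V = X * Y) (mu : L →+ ℤ) (hV0 : V.coeff 0 ≠ 0)
    (hst : ∀ z : Circle, evR z (V.coeff 0) ≠ 0 →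
      ∀ (u : AddChar L Circle) (s : ℂ), ‖s‖ < 1 → (sl u mu (spec z V)).eval s ≠ 0)
    (hX0 : X.coeff 0 ≠ 0) (hX : Pos mu X) (hY : Nn mu Y) : Stable X := by
  refine ⟨hX0, mu, hX, ?_⟩
  intro z hz u s hs
  set m := X.coeff.support.sup fun a => (mu a).toNat with hm
  set F : Circle → ℝ := fun z => ‖(sl u mu (spec z X)).eval s‖
    - ‖evR z (X.coeff 0)‖ * (1 - ‖s‖) ^ m with hF
  have hcont : Continuous F := by
    have h1 : Continuous fun z : Circle => (sl u mu (spec z X)).eval s := by
      simp only [eval_spec]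
      refine continuous_finsetSum _ fun a _ => ?_
      exact ((H36.evrs O).2.2.2 (X.coeff a)).mul continuous_const |>.mul continuous_const
    exact h1.norm.sub (((H36.evrs O).2.2.2 (X.coeff 0)).norm.mul continuous_const)
  have hgood : ∀ w : Circle, evR w (V.coeff 0) ≠ 0 → 0 ≤ F w := by
    intro w hw
    have hzf : ZF (sl u mu (spec w X)) := by
      intro t ht h0
      refine hst w hw u t ht ?_
      rw [hV, map_mul, (H96.slm L u mu _ _ (nn_spec (pos_nn hX) w) (nn_spec hY w)).1,
        Polynomial.eval_mul, h0, zero_mul]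
    have h2 := MP_b5021c_nt.H76.a3b (sl u mu (spec w X)) m (natDegree_spec X w u mu) hzf s hs.le
    rw [coeff_zero_spec X w u mu hX] at h2
    rw [hF]
    simp only []
    linarith
  have hdense := dense_compl _ (H07.zfi O (V.coeff 0) hV0)
  have hall : 0 ≤ F z := by
    have hcl : IsClosed {w : Circle | 0 ≤ F w} := isClosed_le continuous_const hcont
    have h3 : {w : Circle | evR w (V.coeff 0) = 0}ᶜ ⊆ {w : Circle | 0 ≤ F w} := fun w hw => hgood w hw
    have h4 := hcl.closure_subset_iff.mpr h3
    rw [hdense.closure_eq] at h4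
    exact h4 (Set.mem_univ z)
  intro h0
  rw [hF] at hall
  simp only [] at hall
  rw [h0, norm_zero] at hall
  have h5 : 0 < ‖evR z (X.coeff 0)‖ * (1 - ‖s‖) ^ m := by
    have h6 : 0 < ‖evR z (X.coeff 0)‖ := norm_pos_iff.mpr hz
    have h7 : 0 < (1 - ‖s‖) ^ m := pow_pos (by linarith) m
    exact mul_pos h6 h7
  linarith

theorem mon_coeff (b : L) (X : AO O L) (a : L) : (mon b * X).coeff a = X.coeff (a - b) := by
  unfold mon
  rw [AddMonoidAlgebra.coeff_single_mul_apply, one_mul, neg_add_eq_sub]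

theorem mon_mul_mon (b : L) : (mon b * mon (-b) : AO O L) = 1 := by
  unfold mon
  rw [AddMonoidAlgebra.single_mul_single, add_neg_cancel, one_mul]
  rfl

end

theorem b4c (hMin : MinS) (_hSt : StSpecS) : B4S := by
  classical
  intro O _ _ _ _ L _ _ _ V G H hV hGH
  obtain ⟨hV0, mu, hmu, hst⟩ := hV
  have hVne : V ≠ 0 := fun h => hV0 (by rw [h]; rfl)
  have hG : G ≠ 0 := fun h => hVne (by rw [hGH, h, zero_mul])
  have hH : H ≠ 0 := fun h => hVne (by rw [hGH, h, mul_zero])
  -- minimal degrees
  obtain ⟨a1, ha1⟩ := exists_supp hG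
  obtain ⟨c1, hc1⟩ := exists_supp hH
  obtain ⟨a0, ha0, hamin⟩ := Finset.exists_min_image G.coeff.support (fun a => mu a)
    ⟨a1, Finsupp.mem_support_iff.mpr ha1⟩
  obtain ⟨c0, hc0, hcmin⟩ := Finset.exists_min_image H.coeff.support (fun a => mu a)
    ⟨c1, Finsupp.mem_support_iff.mpr hc1⟩
  have hle : mu a0 + mu c0 ≤ 0 := by
    have h0 : (0 : L) ∈ (G * H).coeff.support := by
      rw [← hGH]
      exact Finsupp.mem_support_iff.mpr hV0
    have h1 := AddMonoidAlgebra.support_coeff_mul_subset G H h0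
    rw [Finset.mem_add] at h1
    obtain ⟨x, hx, y, hy, hxy⟩ := h1
    have h2 := hamin x hx
    have h3 := hcmin y hy
    have h4 : mu x + mu y = 0 := by rw [← map_add, hxy, map_zero]
    omega
  have key := low_key G H mu (mu a0) (mu c0)
    (fun a ha => hamin a (Finsupp.mem_support_iff.mpr ha))
    (fun b hb => hcmin b (Finsupp.mem_support_iff.mpr hb)) (by
      intro x hx hxe
      by_contra hx0
      rw [← hGH] at hx
      have := hmu x (Finsupp.mem_support_iff.mpr hx) hx0
      omega)
    (Finsupp.mem_support_iff.mp ha0) rfl (Finsupp.mem_support_iff.mp hc0) rfl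
  obtain ⟨k1, k2, k3⟩ := key
  set X : AO O L := mon (-a0) * G with hX
  set Y : AO O L := mon (- -a0) * H with hY
  have hXY : V = X * Y := by
    rw [hGH, hX, hY]
    have h := mon_mul_mon (O := O) (-a0)
    calc G * H = 1 * (G * H) := (one_mul _).symm
      _ = (mon (-a0) * mon (- -a0)) * (G * H) := by rw [h]
      _ = mon (-a0) * G * (mon (- -a0) * H) := by ring
  have hX0 : X.coeff 0 ≠ 0 := by
    rw [hX, mon_coeff]
    simpa using ha0
  have hY0 : Y.coeff 0 ≠ 0 := by
    rw [hY, mon_coeff]
    have h : (0 : L) - - -a0 = c0 := by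
      rw [neg_neg, zero_sub]
      exact neg_eq_of_add_eq_zero_right k1
    rw [h]
    simpa using hc0
  have hXne : X ≠ 0 := fun h => hX0 (by rw [h]; rfl)
  have hYne : Y ≠ 0 := fun h => hY0 (by rw [h]; rfl)
  have hnn : ∀ lam : L →+ ℤ, Nn lam V → Nn lam X ∧ Nn lam Y := by
    intro lam hl
    constructor
    · intro a ha
      refine hMin O L X Y hXne hY0 lam 0 (fun b hb => ?_) a (Finsupp.mem_support_iff.mp ha)
      rw [← hXY] at hb
      exact hl b (Finsupp.mem_support_iff.mpr hb)
    · intro a ha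
      refine hMin O L Y X hYne hX0 lam 0 (fun b hb => ?_) a (Finsupp.mem_support_iff.mp ha)
      rw [mul_comm, ← hXY] at hb
      exact hl b (Finsupp.mem_support_iff.mpr hb)
  have hpos : ∀ lam : L →+ ℤ, Pos lam V → Pos lam X ∧ Pos lam Y := by
    intro lam hl
    obtain ⟨n1, n2⟩ := hnn lam (pos_nn hl)
    have kk := low_key X Y lam 0 0
      (fun a ha => n1 a (Finsupp.mem_support_iff.mpr ha))
      (fun b hb => n2 b (Finsupp.mem_support_iff.mpr hb)) (by
        intro x hx hxe
        by_contra hx0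
        rw [← hXY] at hx
        have := hl x (Finsupp.mem_support_iff.mpr hx) hx0
        omega)
      hX0 (map_zero lam) hY0 (map_zero lam)
    obtain ⟨_, kk2, kk3⟩ := kk
    constructor
    · intro a ha ha'
      have h1 := n1 a ha
      rcases h1.lt_or_eq with h | h
      · exact h
      · exact absurd (kk2 a (Finsupp.mem_support_iff.mp ha) h.symm) ha'
    · intro a ha ha'
      have h1 := n2 a ha
      rcases h1.lt_or_eq with h | h
      · exact h
      · exact absurd (kk3 a (Finsupp.mem_support_iff.mp ha) h.symm) ha'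
  obtain ⟨pX, pY⟩ := hpos mu hmu
  refine ⟨-a0, stable_factor hXY mu hV0 hst hX0 pX (pos_nn pY),
    stable_factor (hXY.trans (mul_comm X Y)) mu hV0 hst hY0 pY (pos_nn pX), ?_⟩
  intro lam
  exact ⟨hnn lam, hpos lam⟩

end Pool.Agent.B5.H03
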